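import Mathlib
import Pool.Agent.Lib.MP_d98608_co.H51Count

namespace Pool.Agent.Results.MP_d98608_co.SparseTwoColourings

/-- A correspondence `t`-cover: for each ordered pair of vertices a relation between their colour
sets `Fin t`, symmetric under reversing the pair, in which every colour has at most one partner
(so it is a matching).  Only the matchings on edges of the graph are used. -/
structure Cover (V : Type*) (t : ℕ) where
  /-- `M v w a b`: colour `a` of `v` is matched with colour `b` of `w`. -/
  M : V → V → Fin t → Fin t → Prop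
  symm : ∀ v w a b, M v w a b → M w v b a
  uniq : ∀ v w a b c, M v w a b → M v w a c → b = c

/-- An `M`-colouring of `G`: the colours at the ends of an edge are never matched. -/
def Cover.IsColouring {V : Type*} {t : ℕ} (C : Cover V t) (G : SimpleGraph V) (φ : V → Fin t) :
    Prop :=
  ∀ v w, G.Adj v w → ¬ C.M v w (φ v) (φ w)

/-- The degree of `v` inside the vertex set `S`. -/
def degIn {V : Type*} (G : SimpleGraph V) [DecidableRel G.Adj] (S : Finset V) (v : V) : ℕ :=
  (S.filter (G.Adj v)).card

/-- If every nonempty induced subgraph of minimum degree at least `4` has average degree below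
`24/5`, then every correspondence `5`-cover admits two disjoint colourings. -/
theorem result {V : Type*} [Fintype V] [DecidableEq V] (G : SimpleGraph V) [DecidableRel G.Adj]
    (h : ∀ S : Finset V, S.Nonempty → (∀ v ∈ S, 4 ≤ degIn G S v) →
      5 * ∑ v ∈ S, degIn G S v < 24 * S.card)
    (C : Cover V 5) :
    ∃ φ₁ φ₂ : V → Fin 5, C.IsColouring G φ₁ ∧ C.IsColouring G φ₂ ∧ ∀ v, φ₁ v ≠ φ₂ v := by
  obtain ⟨φ, ψ, hφ, hψ, hne⟩ :=
    Pool.Agent.Lib.MP_d98608_co.two_colourings (G := G) C.symm C.uniq h Finset.univ
  exact ⟨φ, ψ, fun v w hvw => hφ v (Finset.mem_univ v) w (Finset.mem_univ w) hvw,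
    fun v w hvw => hψ v (Finset.mem_univ v) w (Finset.mem_univ w) hvw, hne⟩

end Pool.Agent.Results.MP_d98608_co.SparseTwoColourings
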